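import Mathlib

/-!
# Eigenvectors of `ad D` in `𝔰𝔬 (Q)`
-/

set_option autoImplicit false
set_option linter.unusedSimpArgs false

namespace Pool.Agent.H14.K3

open Matrix

theorem eig0 (m : ℕ) (Q : Matrix (Fin m) (Fin m) ℂ) (e f : Fin m → ℂ) (hQ : Qᵀ = Q) (hee : e ⬝ᵥ (Q *ᵥ e) = 0)
    (hff : f ⬝ᵥ (Q *ᵥ f) = 0) (hef : e ⬝ᵥ (Q *ᵥ f) = 1)
    (D : Matrix (Fin m) (Fin m) ℂ) (hD : D = (2 : ℂ) • (vecMulVec e (Q *ᵥ f) - vecMulVec f (Q *ᵥ e))) :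
    (∀ X : Matrix (Fin m) (Fin m) ℂ, Xᵀ * Q = -(Q * X) → D * X - X * D = (2 : ℂ) • X →
      X = vecMulVec e (Q *ᵥ (-(X *ᵥ f))) - vecMulVec (-(X *ᵥ f)) (Q *ᵥ e) ∧
      (-(X *ᵥ f)) ⬝ᵥ (Q *ᵥ e) = 0 ∧ (-(X *ᵥ f)) ⬝ᵥ (Q *ᵥ f) = 0) ∧
    ∀ a b w : Fin m → ℂ, (∀ x ∈ [a, b, w], x ⬝ᵥ (Q *ᵥ e) = 0 ∧ x ⬝ᵥ (Q *ᵥ f) = 0) →
      ∀ X Y Z : Matrix (Fin m) (Fin m) ℂ, X = vecMulVec e (Q *ᵥ a) - vecMulVec a (Q *ᵥ e) →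
      Y = vecMulVec f (Q *ᵥ b) - vecMulVec b (Q *ᵥ f) →
      Z = vecMulVec e (Q *ᵥ w) - vecMulVec w (Q *ᵥ e) →
      (X * Y - Y * X) * Z - Z * (X * Y - Y * X) =
        -(vecMulVec e (Q *ᵥ ((b ⬝ᵥ (Q *ᵥ w)) • a + (a ⬝ᵥ (Q *ᵥ b)) • w - (a ⬝ᵥ (Q *ᵥ w)) • b)) -
          vecMulVec ((b ⬝ᵥ (Q *ᵥ w)) • a + (a ⬝ᵥ (Q *ᵥ b)) • w - (a ⬝ᵥ (Q *ᵥ w)) • b) (Q *ᵥ e)) := by
  have hs : ∀ x y : Fin m → ℂ, x ⬝ᵥ (Q *ᵥ y) = y ⬝ᵥ (Q *ᵥ x) := by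
    intro x y
    rw [dotProduct_mulVec, ← mulVec_transpose, hQ, dotProduct_comm]
  have hs' : ∀ x y : Fin m → ℂ, (Q *ᵥ x) ⬝ᵥ y = x ⬝ᵥ (Q *ᵥ y) := by
    intro x y
    rw [dotProduct_comm, hs]
  have hfe : f ⬝ᵥ (Q *ᵥ e) = 1 := by rw [hs, hef]
  constructor
  · intro X hX hDX
    have hsk : ∀ x y : Fin m → ℂ, (X *ᵥ x) ⬝ᵥ (Q *ᵥ y) = -(x ⬝ᵥ (Q *ᵥ (X *ᵥ y))) := by
      intro x y
      have h1 : (X *ᵥ x) ⬝ᵥ (Q *ᵥ y) = x ⬝ᵥ (Xᵀ *ᵥ (Q *ᵥ y)) := by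
        rw [dotProduct_mulVec x, vecMul_transpose]
      rw [h1, mulVec_mulVec, hX, neg_mulVec, dotProduct_neg, ← mulVec_mulVec]
    have hDv : ∀ t : Fin m → ℂ, D *ᵥ t = (2 : ℂ) • ((f ⬝ᵥ (Q *ᵥ t)) • e - (e ⬝ᵥ (Q *ᵥ t)) • f) := by
      intro t
      rw [hD, smul_mulVec, sub_mulVec, vecMulVec_mulVec, vecMulVec_mulVec, hs', hs']
      simp [op_smul_eq_smul]
    have hXe : X *ᵥ e = 0 := by
      have h1 := congrArg (fun M => M *ᵥ e) hDX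
      simp only [sub_mulVec, smul_mulVec, ← mulVec_mulVec] at h1
      rw [hDv e, hfe, hee, hDv (X *ᵥ e)] at h1
      set y := X *ᵥ e with hy
      simp only [one_smul, zero_smul, sub_zero, mulVec_smul] at h1
      rw [← hy] at h1
      have h2 := congrArg (fun z => f ⬝ᵥ (Q *ᵥ z)) h1
      have h3 := congrArg (fun z => e ⬝ᵥ (Q *ᵥ z)) h1
      simp only [mulVec_sub, mulVec_smul, dotProduct_sub, dotProduct_smul, smul_eq_mul, hfe, hef, hee, hff] at h2 h3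
      have h4 : f ⬝ᵥ (Q *ᵥ y) = 0 := by linear_combination (-1 / 2 : ℂ) * h2
      have h5 : e ⬝ᵥ (Q *ᵥ y) = 0 := by linear_combination (-1 / 6 : ℂ) * h3
      rw [h4, h5] at h1
      simp only [zero_smul, sub_zero, smul_zero, zero_sub] at h1
      have h6 : (4 : ℂ) • y = 0 := by
        have h7 : (4 : ℂ) • y = (2 : ℂ) • y - (-((2 : ℂ) • y)) := by module
        rw [h7, h1, sub_self]
      exact (smul_eq_zero.1 h6).resolve_left (by norm_num)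
    have h1 : (-(X *ᵥ f)) ⬝ᵥ (Q *ᵥ e) = 0 := by
      rw [neg_dotProduct, hsk, hXe, mulVec_zero, dotProduct_zero, neg_zero, neg_zero]
    have h2 : (-(X *ᵥ f)) ⬝ᵥ (Q *ᵥ f) = 0 := by
      have h3 := hsk f f
      rw [hs f (X *ᵥ f)] at h3
      rw [neg_dotProduct]
      linear_combination (-1 / 2 : ℂ) * h3
    refine ⟨?_, h1, h2⟩
    have h4 : (2 : ℂ) • X = (2 : ℂ) • (vecMulVec e (Q *ᵥ (-(X *ᵥ f))) - vecMulVec (-(X *ᵥ f)) (Q *ᵥ e)) := by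
      rw [← hDX, hD, smul_mul_assoc, mul_smul_comm, ← smul_sub, sub_mul, mul_sub, vecMulVec_mul, vecMulVec_mul,
        mul_vecMulVec, mul_vecMulVec, hXe]
      have h5 : ∀ x : Fin m → ℂ, (Q *ᵥ x) ᵥ* X = Q *ᵥ (-(X *ᵥ x)) := by
        intro x
        rw [← mulVec_transpose, mulVec_mulVec, hX, neg_mulVec, mulVec_neg, ← mulVec_mulVec]
      rw [h5, h5, hXe]
      simp [neg_vecMulVec, vecMulVec_neg, mulVec_neg]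
    exact smul_right_injective _ (by norm_num : (2 : ℂ) ≠ 0) h4
  · intro a b w habw X Y Z hX hY hZ
    obtain ⟨ha1, ha2⟩ := habw a (by simp)
    obtain ⟨hb1, hb2⟩ := habw b (by simp)
    obtain ⟨hw1, hw2⟩ := habw w (by simp)
    have hea : e ⬝ᵥ (Q *ᵥ a) = 0 := by rw [hs, ha1]
    have hfa : f ⬝ᵥ (Q *ᵥ a) = 0 := by rw [hs, ha2]
    have heb : e ⬝ᵥ (Q *ᵥ b) = 0 := by rw [hs, hb1]
    have hfb : f ⬝ᵥ (Q *ᵥ b) = 0 := by rw [hs, hb2]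
    have hew : e ⬝ᵥ (Q *ᵥ w) = 0 := by rw [hs, hw1]
    have hfw : f ⬝ᵥ (Q *ᵥ w) = 0 := by rw [hs, hw2]
    have hba : b ⬝ᵥ (Q *ᵥ a) = a ⬝ᵥ (Q *ᵥ b) := hs b a
    have hwa : w ⬝ᵥ (Q *ᵥ a) = a ⬝ᵥ (Q *ᵥ w) := hs w a
    have hwb : w ⬝ᵥ (Q *ᵥ b) = b ⬝ᵥ (Q *ᵥ w) := hs w b
    have hXY : X * Y - Y * X = vecMulVec b (Q *ᵥ a) - vecMulVec a (Q *ᵥ b) -
        (a ⬝ᵥ (Q *ᵥ b)) • (vecMulVec e (Q *ᵥ f) - vecMulVec f (Q *ᵥ e)) := by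
      rw [hX, hY]
      simp only [sub_mul, mul_sub, vecMulVec_mul_vecMulVec, hs', ha1, ha2, hb1, hb2, hea, hfa, heb, hfb, hee, hff, hef, hfe,
        hba, zero_smul, one_smul, vecMulVec_zero, vecMulVec_smul]
      module
    rw [hXY, hZ]
    simp only [sub_mul, mul_sub, smul_mul_assoc, mul_smul_comm, smul_sub, vecMulVec_mul_vecMulVec, hs', ha1, ha2, hb1, hb2,
      hw1, hw2, hea, hfa, heb, hfb, hew, hfw, hee, hff, hef, hfe, hba, hwa, hwb, zero_smul, one_smul, vecMulVec_zero,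
      vecMulVec_smul, mulVec_add, mulVec_sub, mulVec_smul, vecMulVec_add, vecMulVec_sub, add_vecMulVec, sub_vecMulVec,
      smul_vecMulVec, smul_zero, sub_zero, zero_sub, add_zero, zero_add]
    module

end Pool.Agent.H14.K3
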