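import Pool.Agent.H47.K3.Stm
import Pool.Agent.H14.K3.Eig0

/-!
# Module EIG
-/

set_option autoImplicit false

namespace Pool.Agent.H14.K3

theorem eig : Pool.Agent.H47.K3.S_EIG := by
  intro m Q e f hQ hee hff hef D hD
  exact eig0 m Q e f hQ hee hff hef D hD

end Pool.Agent.H14.K3
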