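import Mathlib
import Pool.Agent.H47.K3.Stm
import Pool.Graph.R_pool_sql_team_seeded_3997aac3.Q128.D3.Conv

/-!
# Push-forwards of Hodge classes on products of K3 surfaces and abelian varieties are Hodge classes
-/

set_option autoImplicit false
set_option linter.unusedSectionVars false
set_option linter.unusedVariables false

namespace Pool.Agent.H14.K3

open Matrix Module Equiv Pool.Agent.H204R3.CM Pool.Agent.H47.K3
open Pool.Agent.Q60.D3 (AV IsHom IsCM)
open Pool.Agent.Q128.D3 (alt_unit span_basis)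

noncomputable section

variable {X Y : AV} {κ κ' : Type}

/-- a multilinear form on the product, with the second part of the variables in the second factor and the first
part fixed -/
def fL (ψ : MultilinearMap ℝ (fun _ : κ ⊕ κ' => (X.prod Y).T) ℝ) (u : κ → X.T) :
    MultilinearMap ℝ (fun _ : κ' => Y.T) ℝ :=
  (ψ.currySum (fun k => (((u k, 0) : X.T × Y.T) : (X.prod Y).T))).compLinearMap
    fun _ => (LinearMap.inr ℝ X.T Y.T : Y.T →ₗ[ℝ] (X.prod Y).T)

theorem fL_apply (ψ : MultilinearMap ℝ (fun _ : κ ⊕ κ' => (X.prod Y).T) ℝ) (u : κ → X.T)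
    (y : κ' → Y.T) : fL ψ u y = ψ (Sum.elim (fun k => (((u k, 0) : X.T × Y.T) : (X.prod Y).T))
      (fun k => (((0, y k) : X.T × Y.T) : (X.prod Y).T))) := by
  change ψ _ = ψ _
  congr 1

/-- a rational alternating form, the first part of the variables fixed -/
def fA (f : (X.prod Y).H [⋀^κ ⊕ κ']→ₗ[ℚ] ℚ) (w : κ → X.H) : Y.H [⋀^κ']→ₗ[ℚ] ℚ where
  toMultilinearMap := (f.toMultilinearMap.currySum
    (fun k => (((w k, 0) : X.H × Y.H) : (X.prod Y).H))).compLinearMap
      fun _ => (LinearMap.inr ℚ X.H Y.H : Y.H →ₗ[ℚ] (X.prod Y).H)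
  map_eq_zero_of_eq' := by
    intro y i k hy hik
    change f _ = 0
    refine f.map_eq_zero_of_eq _ (i := Sum.inr i) (j := Sum.inr k) ?_ (by simpa using hik)
    change ((0, y i) : X.H × Y.H) = (0, y k)
    rw [hy]

theorem fA_apply (f : (X.prod Y).H [⋀^κ ⊕ κ']→ₗ[ℚ] ℚ) (w : κ → X.H) (y : κ' → Y.H) :
    fA f w y = f (Sum.elim (fun k => (((w k, 0) : X.H × Y.H) : (X.prod Y).H))
      (fun k => (((0, y k) : X.H × Y.H) : (X.prod Y).H))) := by
  change f _ = f _
  congr 1

/-- the second part of the variables fixed, as a multilinear form in the first part -/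
def fR (ψ : MultilinearMap ℝ (fun _ : κ ⊕ κ' => (X.prod Y).T) ℝ) (y : κ' → Y.T) :
    MultilinearMap ℝ (fun _ : κ => X.T) ℝ where
  toFun u := fL ψ u y
  map_update_add' := by
    intro hd u k a b
    have h1 : ∀ z : X.T, (fun k' => (((Function.update u k z k', 0) : X.T × Y.T) : (X.prod Y).T)) =
        Function.update (fun k' => (((u k', 0) : X.T × Y.T) : (X.prod Y).T)) k ((z, 0) : X.T × Y.T) := by
      intro z
      funext s
      by_cases h : s = k
      · subst h; simp
      · simp [h]
    have h2 : ((a + b, 0) : X.T × Y.T) = ((a, 0) : X.T × Y.T) + (b, 0) := by simp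
    unfold fL
    rw [h1, h1, h1, h2]
    have h3 := ψ.currySum.map_update_add (fun k' => (((u k', 0) : X.T × Y.T) : (X.prod Y).T)) k
      (((a, 0) : X.T × Y.T) : (X.prod Y).T) (((b, 0) : X.T × Y.T) : (X.prod Y).T)
    exact congrArg (fun m : MultilinearMap ℝ (fun _ : κ' => (X.prod Y).T) ℝ => (m.compLinearMap
      (fun _ => (LinearMap.inr ℝ X.T Y.T : Y.T →ₗ[ℝ] (X.prod Y).T))) y) h3
  map_update_smul' := by
    intro hd u k c x
    have h1 : ∀ z : X.T, (fun k' => (((Function.update u k z k', 0) : X.T × Y.T) : (X.prod Y).T)) =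
        Function.update (fun k' => (((u k', 0) : X.T × Y.T) : (X.prod Y).T)) k ((z, 0) : X.T × Y.T) := by
      intro z
      funext s
      by_cases h : s = k
      · subst h; simp
      · simp [h]
    have h2 : ((c • x, 0) : X.T × Y.T) = c • ((x, 0) : X.T × Y.T) := by simp
    unfold fL
    rw [h1, h1, h2]
    have h3 := ψ.currySum.map_update_smul (fun k' => (((u k', 0) : X.T × Y.T) : (X.prod Y).T)) k
      c (((x, 0) : X.T × Y.T) : (X.prod Y).T)
    exact congrArg (fun m : MultilinearMap ℝ (fun _ : κ' => (X.prod Y).T) ℝ => (m.compLinearMap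
      (fun _ => (LinearMap.inr ℝ X.T Y.T : Y.T →ₗ[ℝ] (X.prod Y).T))) y) h3

theorem fR_apply (ψ : MultilinearMap ℝ (fun _ : κ ⊕ κ' => (X.prod Y).T) ℝ) (y : κ' → Y.T)
    (u : κ → X.T) : fR ψ y u = fL ψ u y := rfl

/-- **The push-forward of a Hodge class is a Hodge class.** -/
theorem isHodgeK_push {s : Type} [Fintype s] [DecidableEq s] {V : s → KT} (b : Basis κ' ℚ Y.H)
    (f : (∀ l, Fin (V l).n) → (X.prod Y).H [⋀^κ ⊕ κ']→ₗ[ℚ] ℚ) (hf : IsHodgeK V (X.prod Y) f)
    (g : (∀ l, Fin (V l).n) → X.H [⋀^κ]→ₗ[ℚ] ℚ)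
    (hg : ∀ J (w : κ → X.H),
      g J w = f J (Sum.elim (fun k => ((w k, 0) : X.H × Y.H)) (fun k => ((0, b k) : X.H × Y.H)))) :
    IsHodgeK V X g := by
  classical
  have : Finite κ' := Module.Finite.finite_basis b
  have := Fintype.ofFinite κ'
  obtain ⟨ψ, h1, h2⟩ := hf
  have hc : ((Fintype.card (Perm κ') : ℝ)) ≠ 0 := Nat.cast_ne_zero.2 Fintype.card_ne_zero
  have key : ∀ J (u : κ → X.T) (y : κ' → Y.T),
      (((Fintype.card (Perm κ') : ℝ))⁻¹ • ∑ σ : Perm κ', ((Perm.sign σ : ℤ) : ℝ) •
        fR (ψ J) (fun k => y (σ k))) u =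
      ((Fintype.card (Perm κ') : ℝ))⁻¹ * MultilinearMap.alternatization (fL (ψ J) u) y := by
    intro J u y
    rw [_root_.smul_apply, _root_.sum_apply,
      MultilinearMap.alternatization_apply, smul_eq_mul]
    congr 1
    refine Finset.sum_congr rfl fun σ _ => ?_
    rw [_root_.smul_apply, Units.smul_def, zsmul_eq_mul, smul_eq_mul]
    rfl
  refine ⟨fun J => ((Fintype.card (Perm κ') : ℝ))⁻¹ • ∑ σ : Perm κ', ((Perm.sign σ : ℤ) : ℝ) •
    fR (ψ J) (fun k => Y.per (b (σ k))), fun J w => ?_, fun z hz J u => ?_⟩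
  · rw [key J (fun k => X.per (w k)) (fun k => Y.per (b k)), MultilinearMap.alternatization_apply]
    have h3 : ∀ σ : Perm κ', Perm.sign σ • (MultilinearMap.domDomCongr σ
        (fL (ψ J) (fun k => X.per (w k)))) (fun k => Y.per (b k)) = (g J w : ℝ) := by
      intro σ
      have h4 : (MultilinearMap.domDomCongr σ (fL (ψ J) (fun k => X.per (w k))))
          (fun k => Y.per (b k)) = (fA (f J) w (fun k => b (σ k)) : ℝ) := by
        rw [fA_apply, ← h1, MultilinearMap.domDomCongr_apply, fL_apply]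
        congr 1
        funext t
        rcases t with k | k
        · change ((X.per (w k), 0) : X.T × Y.T) = (X.per.prodMap Y.per) ((w k, 0) : X.H × Y.H)
          exact Prod.ext rfl (map_zero Y.per).symm
        · change ((0, Y.per (b (σ k))) : X.T × Y.T) = (X.per.prodMap Y.per) ((0, b (σ k)) : X.H × Y.H)
          exact Prod.ext (map_zero X.per).symm rfl
      have h5 : fA (f J) w (fun k => b (σ k)) = Perm.sign σ • g J w := by
        rw [hg J w]
        refine ((fA (f J) w).map_perm b σ).trans ?_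
        rw [fA_apply]
      rw [h4, h5, Units.smul_def, Units.smul_def, zsmul_eq_mul, zsmul_eq_mul, Rat.cast_mul,
        Rat.cast_intCast, ← mul_assoc, ← Int.cast_mul, ← Units.val_mul, Int.units_mul_self,
        Units.val_one, Int.cast_one, one_mul]
    rw [Finset.sum_congr rfl (fun σ _ => h3 σ), Finset.sum_const, Finset.card_univ, nsmul_eq_mul,
      ← mul_assoc, inv_mul_cancel₀ hc, one_mul]
  · have hfin : finrank ℝ Y.T ≤ Fintype.card κ' := by
      have h4 := finrank_range_le_card (R := ℝ) (fun k => Y.per (b k))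
      rw [Set.finrank, span_basis b, finrank_top] at h4
      exact h4
    have hz' : ‖z⁻¹‖ = 1 := by rw [norm_inv, hz, inv_one]
    have hz0 : z ≠ 0 := by
      intro h
      rw [h, norm_zero] at hz
      exact zero_ne_one hz
    have h6 : ∀ y : κ' → Y.T, ∑ I : ∀ l, Fin (V l).n, (∏ l, (V l).rot z (I l) (J l)) *
        fL (ψ I) (fun k => z • u k) y = fL (ψ J) u (fun k => z⁻¹ • y k) := by
      intro y
      rw [fL_apply, ← h2 z hz J]
      refine Finset.sum_congr rfl fun I _ => ?_
      rw [fL_apply]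
      congr 2
      funext t
      rcases t with k | k
      · change ((z • u k, 0) : X.T × Y.T) = z • ((u k, 0) : X.T × Y.T)
        rw [Prod.smul_mk, smul_zero]
      · change ((0, y k) : X.T × Y.T) = z • ((0, z⁻¹ • y k) : X.T × Y.T)
        rw [Prod.smul_mk, smul_zero, smul_smul, mul_inv_cancel₀ hz0, one_smul]
    have h7 : ∑ I : ∀ l, Fin (V l).n, (∏ l, (V l).rot z (I l) (J l)) *
        MultilinearMap.alternatization (fL (ψ I) (fun k => z • u k)) (fun k => Y.per (b k)) =
        MultilinearMap.alternatization (fL (ψ J) u) (fun k => z⁻¹ • Y.per (b k)) := by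
      simp only [MultilinearMap.alternatization_apply, Finset.mul_sum]
      rw [Finset.sum_comm]
      refine Finset.sum_congr rfl fun σ _ => ?_
      have h8 := h6 (fun k => Y.per (b (σ k)))
      have h9 : (MultilinearMap.domDomCongr σ (fL (ψ J) u)) (fun k => z⁻¹ • Y.per (b k)) =
          fL (ψ J) u (fun k => z⁻¹ • Y.per (b (σ k))) := rfl
      rw [h9, ← h8, Units.smul_def, zsmul_eq_mul, Finset.mul_sum]
      refine Finset.sum_congr rfl fun I _ => ?_
      rw [Units.smul_def, zsmul_eq_mul]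
      have h10 : (MultilinearMap.domDomCongr σ (fL (ψ I) (fun k => z • u k)))
          (fun k => Y.per (b k)) = fL (ψ I) (fun k => z • u k) (fun k => Y.per (b (σ k))) := rfl
      rw [h10]
      ring
    have h11 := alt_unit hfin (MultilinearMap.alternatization (fL (ψ J) u)) hz'
      (fun k => Y.per (b k))
    calc ∑ I : ∀ l, Fin (V l).n, (∏ l, (V l).rot z (I l) (J l)) *
          (((Fintype.card (Perm κ') : ℝ))⁻¹ • ∑ σ : Perm κ', ((Perm.sign σ : ℤ) : ℝ) •
            fR (ψ I) (fun k => Y.per (b (σ k)))) (fun k => z • u k)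
        = ((Fintype.card (Perm κ') : ℝ))⁻¹ * ∑ I : ∀ l, Fin (V l).n, (∏ l, (V l).rot z (I l) (J l)) *
            MultilinearMap.alternatization (fL (ψ I) (fun k => z • u k)) (fun k => Y.per (b k)) := by
          rw [Finset.mul_sum]
          refine Finset.sum_congr rfl fun I _ => ?_
          rw [key I (fun k => z • u k) (fun k => Y.per (b k))]
          ring
      _ = ((Fintype.card (Perm κ') : ℝ))⁻¹ *
            MultilinearMap.alternatization (fL (ψ J) u) (fun k => Y.per (b k)) := by
          rw [h7, h11]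
      _ = _ := (key J u (fun k => Y.per (b k))).symm

end

end Pool.Agent.H14.K3
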